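import Mathlib
import Pool.Agent.Helper17.Berk.Core

/-!
# The equilibrium measure, literal form (MP_160e9b_an)

`f_* φ (y) = ∑_{f(x) = y} deg_f(x) φ(x)` on the Berkovich projective line, and the condition
`f^* ρ = deg f · ρ` for measures supported on the Julia set.
-/

open Polynomial Topology MeasureTheory

set_option linter.dupNamespace false

namespace Pool.Agent.Helper34.Berk

open Pool.Agent.Helper17.Berk

universe u

variable {K : Type u} [NontriviallyNormedField K] [IsUltrametricDist K]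

/-- the push-forward `f_* φ (y) = ∑_{f(x) = y} deg_f(x) φ(x)`. -/
noncomputable def pushf (f : RatMap K) (φ : P1 K → ℝ) (y : P1 K) : ℝ :=
  ∑ᶠ x ∈ {x : P1 K | f.act x = y}, (f.locDeg x : ℝ) * φ x

/-- `ρ` is supported on the Julia set and `f^* ρ = deg f · ρ`, where
`∫ φ d(f^* ρ) = ∫ f_* φ dρ` and `f_* φ (y) = ∑_{f(x) = y} deg_f(x) φ(x)`. -/
structure IsEquilibriumLit (f : RatMap K) (ρ : Measure (P1 K)) : Prop where
  supp : ρ (f.julia)ᶜ = 0
  pull : ∀ φ : C(P1 K, ℝ), ∫ y, pushf f φ y ∂ρ = f.deg * ∫ x, φ x ∂ρ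

end Pool.Agent.Helper34.Berk
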