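import Mathlib
import Pool.Agent.Helper17.Berk.LocDeg
import Pool.Agent.Helper34.Berk.LitDef

/-!
# The push-forward `f_* φ (y) = ∑_{f(x) = y} deg_f(x) φ(x)` (MP_160e9b_an)

Fibres are finite, the local degrees over a point add up to the degree, `f_* φ` is continuous for
continuous `φ`, and over a classical point it is the sum over the classical fibre with
multiplicities.  Consequence: the equilibrium condition of the problem, stated with `f_* φ`, implies
`RatMap.IsEquilibrium`.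
-/

open Polynomial Topology MeasureTheory Filter

set_option linter.dupNamespace false
set_option linter.unusedSectionVars false

namespace Pool.Agent.Helper34.Berk

open Pool.Agent.Helper17.Berk

universe u

variable {K : Type u} [NontriviallyNormedField K] [IsUltrametricDist K] [IsAlgClosed K]

/-- lower semicontinuity of the number of preimages near a point. -/
theorem exists_locDeg_le_N (f : RatMap K) (hd : 1 ≤ f.deg) (x : P1 K)
    {V : Set (P1 K)} (hV : IsOpen V) (hxV : x ∈ V) :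
    ∃ W : Set (P1 K), IsOpen W ∧ f.act x ∈ W ∧
      ∀ w : OnePoint K, emb w ∈ W → f.locDeg x ≤ f.N w V := by
  induction x using OnePoint.rec with
  | infty =>
    obtain ⟨R, hR, hsub⟩ := exists_compl_cD_subset hV hxV
    set y₀ := f.act (OnePoint.infty : P1 K) with hy₀
    obtain ⟨t, ht, h2⟩ := (eventually_mem_nhdsWithin.and
      (eventually_above_ld (f.TP_G hd 0 y₀) hR)).exists
    have hRt : R < t := ht
    have ht0 : 0 < t := hR.trans hRt
    obtain ⟨W, hW1, hWo, hyW⟩ := eventually_nhds_iff.1 (f.eventually_eq hd 0 ht0 h2.1 h2.2)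
    have hN : ∀ w : OnePoint K, emb w ∈ W →
        f.N w (cD (0 : K) t)ᶜ = f.deg - hi (f.G 0 y₀) R := by
      intro w hw
      have h3 := f.N_compl w (cD (0 : K) t)
      rw [f.N_cD hd w 0 ht0, (hW1 _ hw).2] at h3
      omega
    have hle : f.locDeg (OnePoint.infty : P1 K) ≤ f.deg - hi (f.G 0 y₀) R :=
      f.locDeg_le_of _ (isClosed_cD (0 : K) t).isOpen_compl infty_notMem_cD hWo hyW
        (fun w hw => (hN w hw).le)
    refine ⟨W, hWo, hyW, fun w hw => hle.trans ?_⟩
    rw [← hN w hw]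
    refine f.N_mono w (Set.Subset.trans (Set.compl_subset_compl.2 ?_) hsub)
    rintro _ ⟨x, rfl, hx⟩
    exact ⟨x, rfl, hx.trans hRt.le⟩
  | coe x =>
    by_cases hx : ∃ (a : K) (r : ℝ), 0 < r ∧ x = zeta a r
    · obtain ⟨a, r, hr, rfl⟩ := hx
      exact f.exists_locDeg_le_N_ld hd a hr hV hxV
    · push Not at hx
      obtain ⟨a, r, hr, hxO, hsub⟩ := exists_oD_subset hV x (fun a r hr h => hx a r hr h) hxV
      rw [coe_mem_oD] at hxO
      set y₀ := f.act (x : P1 K) with hy₀
      obtain ⟨t, ⟨ht0, hxt, htr⟩, h2⟩ := ((eventually_gt_lt_ld hr hxO).and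
        (eventually_below_ld (f.TP_G hd a y₀) hr)).exists
      obtain ⟨W, hW1, hWo, hyW⟩ := eventually_nhds_iff.1 (f.eventually_eq hd a ht0 h2.1 h2.2)
      have hN : ∀ w : OnePoint K, emb w ∈ W → f.N w (oD a t) = lo (f.G a y₀) r := by
        intro w hw
        rw [f.N_oD hd w a ht0, (hW1 _ hw).1]
      have hle : f.locDeg (x : P1 K) ≤ lo (f.G a y₀) r :=
        f.locDeg_le_of _ (isOpen_oD a t) (coe_mem_oD.2 hxt) hWo hyW (fun w hw => (hN w hw).le)
      refine ⟨W, hWo, hyW, fun w hw => hle.trans ?_⟩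
      rw [← hN w hw]
      refine f.N_mono w (Set.Subset.trans ?_ hsub)
      rintro _ ⟨z, rfl, hz⟩
      exact ⟨z, rfl, hz.trans htr⟩

/-- simultaneous neighbourhoods of finitely many points of a fibre, with exact counts. -/
theorem exists_nhds (f : RatMap K) (hd : 1 ≤ f.deg) (y : P1 K) (X : Finset (P1 K))
    (hX : ∀ x ∈ X, f.act x = y) (O : P1 K → Set (P1 K)) (hO : ∀ x ∈ X, IsOpen (O x) ∧ x ∈ O x) :
    ∃ (V : P1 K → Set (P1 K)) (W : Set (P1 K)), (∀ x ∈ X, IsOpen (V x) ∧ x ∈ V x ∧ V x ⊆ O x) ∧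
      (∀ x ∈ X, ∀ x' ∈ X, x ≠ x' → Disjoint (V x) (V x')) ∧ IsOpen W ∧ y ∈ W ∧
      ∀ w : OnePoint K, emb w ∈ W → ∀ x ∈ X, f.N w (V x) = f.locDeg x := by
  classical
  obtain ⟨U, hU, hUd⟩ := (X : Set (P1 K)).toFinite.t2_separation
  choose V₁ hV₁ hxV₁ W₁ hW₁ hyW₁ hN₁ using f.exists_locDeg
  set V : P1 K → Set (P1 K) := fun x => V₁ x ∩ U x ∩ (if x ∈ X then O x else Set.univ) with hV
  have hVx : ∀ x ∈ X, V x = V₁ x ∩ U x ∩ O x := fun x hx => by simp [hV, hx]
  have hVo : ∀ x ∈ X, IsOpen (V x) := fun x hx => by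
    rw [hVx x hx]; exact ((hV₁ x).inter (hU x).2).inter (hO x hx).1
  have hxV : ∀ x ∈ X, x ∈ V x := fun x hx => by
    rw [hVx x hx]; exact ⟨⟨hxV₁ x, (hU x).1⟩, (hO x hx).2⟩
  have hex : ∀ x : P1 K, ∃ W : Set (P1 K), x ∈ X → IsOpen W ∧ f.act x ∈ W ∧
      ∀ w : OnePoint K, emb w ∈ W → f.locDeg x ≤ f.N w (V x) := by
    intro x
    by_cases hx : x ∈ X
    · obtain ⟨W, h1, h2, h3⟩ := exists_locDeg_le_N f hd x (hVo x hx) (hxV x hx)
      exact ⟨W, fun _ => ⟨h1, h2, h3⟩⟩
    · exact ⟨∅, fun h => absurd h hx⟩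
  choose W₂ hW₂ using hex
  refine ⟨V, ⋂ x ∈ X, (W₁ x ∩ W₂ x), fun x hx => ⟨hVo x hx, hxV x hx, ?_⟩, ?_, ?_, ?_, ?_⟩
  · rw [hVx x hx]; exact Set.inter_subset_right
  · intro x hx x' hx' hne
    rw [hVx x hx, hVx x' hx']
    refine (hUd hx hx' hne).mono ?_ ?_
    · exact fun z hz => hz.1.2
    · exact fun z hz => hz.1.2
  · exact isOpen_biInter_finset fun x hx => (hW₁ x).inter (hW₂ x hx).1
  · rw [Set.mem_iInter₂]
    intro x hx
    have h1 := hyW₁ x
    have h2 := (hW₂ x hx).2.1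
    rw [hX x hx] at h1 h2
    exact ⟨h1, h2⟩
  · intro w hw x hx
    rw [Set.mem_iInter₂] at hw
    refine le_antisymm ?_ ((hW₂ x hx).2.2 w (hw x hx).2)
    refine (f.N_mono w ?_).trans (hN₁ x w (hw x hx).1)
    rw [hVx x hx]
    exact fun z hz => hz.1.1

/-- the fibre over a Berkovich point. -/
def Fib (f : RatMap K) (y : P1 K) : Set (P1 K) := {x | f.act x = y}

theorem sum_locDeg_le (f : RatMap K) (hd : 1 ≤ f.deg) (y : P1 K) (X : Finset (P1 K))
    (hX : ∀ x ∈ X, f.act x = y) : ∑ x ∈ X, f.locDeg x ≤ f.deg := by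
  obtain ⟨V, W, hV, hdis, hWo, hyW, hN⟩ := exists_nhds f hd y X hX (fun _ => Set.univ)
    (fun x _ => ⟨isOpen_univ, trivial⟩)
  obtain ⟨w, hw⟩ := exists_emb_mem_ld hWo hyW
  rw [← Finset.sum_congr rfl (fun x hx => hN w hw x hx), ← f.N_biUnion_eq_ld w X V hdis]
  exact f.N_le_deg w _

theorem Fib_finite (f : RatMap K) (hd : 1 ≤ f.deg) (y : P1 K) : (Fib f y).Finite := by
  by_contra hcon
  obtain ⟨X, hX, hcard⟩ := Set.Infinite.exists_subset_card_eq hcon (f.deg + 1)
  have h1 := sum_locDeg_le f hd y X (fun x hx => hX (by simpa using hx))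
  have h2 : ∑ x ∈ X, 1 ≤ ∑ x ∈ X, f.locDeg x :=
    Finset.sum_le_sum fun x _ => f.one_le_locDeg hd x
  rw [Finset.sum_const, hcard] at h2
  simp at h2
  omega

/-- near `y`, all classical preimages are near the fibre. -/
theorem exists_near_fib (f : RatMap K) (hd : 1 ≤ f.deg) (y : P1 K) (O : Set (P1 K))
    (hO : IsOpen O) (hF : Fib f y ⊆ O) : ∃ W : Set (P1 K), IsOpen W ∧ y ∈ W ∧
      ∀ w : OnePoint K, emb w ∈ W → f.N w O = f.deg := by
  have hcl : IsClosed (f.act '' Oᶜ) :=
    (hO.isClosed_compl.isCompact.image f.continuous_act).isClosed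
  refine ⟨(f.act '' Oᶜ)ᶜ, hcl.isOpen_compl, ?_, fun w hw => ?_⟩
  · rintro ⟨x, hx, hxy⟩
    exact hx (hF hxy)
  · have h1 : f.N w Oᶜ = 0 := by
      by_contra hne
      obtain ⟨z, hz, hz'⟩ := (f.N_pos_iff hd w _).1 (Nat.pos_of_ne_zero hne)
      exact hw ⟨emb z, hz', by rw [f.act_emb, hz]⟩
    have h2 := f.N_compl w O
    omega

/-- **The local degrees over a point add up to the degree.** -/
theorem sum_locDeg_eq (f : RatMap K) (hd : 1 ≤ f.deg) (y : P1 K) :
    ∑ x ∈ (Fib_finite f hd y).toFinset, f.locDeg x = f.deg := by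
  set X := (Fib_finite f hd y).toFinset with hXdef
  have hX : ∀ x ∈ X, f.act x = y := fun x hx => by
    have : x ∈ Fib f y := by simpa [hXdef] using hx
    exact this
  refine le_antisymm (sum_locDeg_le f hd y X hX) ?_
  obtain ⟨V, W, hV, hdis, hWo, hyW, hN⟩ := exists_nhds f hd y X hX (fun _ => Set.univ)
    (fun x _ => ⟨isOpen_univ, trivial⟩)
  obtain ⟨W', hW'o, hyW', hN'⟩ := exists_near_fib f hd y (⋃ x ∈ X, V x)
    (isOpen_biUnion fun x hx => (hV x hx).1) (fun x hx => by
      have hx' : x ∈ X := by simpa [hXdef] using hx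
      exact Set.mem_biUnion hx' (hV x hx').2.1)
  obtain ⟨w, hw, hw'⟩ := exists_emb_mem_ld (hWo.inter hW'o) ⟨hyW, hyW'⟩
  rw [← hN' w hw', f.N_biUnion_eq_ld w X V hdis]
  exact (Finset.sum_congr rfl (fun x hx => hN w hw x hx)).le

theorem pushf_eq (f : RatMap K) (hd : 1 ≤ f.deg) (φ : P1 K → ℝ) (y : P1 K) :
    pushf f φ y = ∑ x ∈ (Fib_finite f hd y).toFinset, (f.locDeg x : ℝ) * φ x := by
  exact finsum_mem_eq_finite_toFinset_sum (fun x => (f.locDeg x : ℝ) * φ x) (Fib_finite f hd y)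

theorem msum_finset {α ι : Type*} (M : Multiset α) (X : Finset ι) (g : ι → α → ℝ) :
    (M.map (fun z => ∑ x ∈ X, g x z)).sum = ∑ x ∈ X, (M.map (g x)).sum := by
  induction M using Multiset.induction_on with
  | empty => simp
  | cons z M ih =>
    simp only [Multiset.map_cons, Multiset.sum_cons, ih, Finset.sum_add_distrib]

open Classical in
theorem msum_ite {α : Type*} (M : Multiset α) (p : α → Prop) (c : ℝ) :
    (M.map (fun z => if p z then c else 0)).sum = ((M.filter p).card : ℝ) * c := by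
  induction M using Multiset.induction_on with
  | empty => simp
  | cons z M ih =>
    rw [Multiset.map_cons, Multiset.sum_cons, ih, Multiset.filter_cons]
    split_ifs with h
    · simp only [Multiset.card_add, Multiset.card_singleton]
      push_cast
      ring
    · simp

theorem msum_close {α : Type*} (M : Multiset α) (u v : α → ℝ) (δ : ℝ)
    (h : ∀ z ∈ M, |u z - v z| ≤ δ) : |(M.map u).sum - (M.map v).sum| ≤ (M.card : ℝ) * δ := by
  induction M using Multiset.induction_on with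
  | empty => simp
  | cons z M ih =>
    have h1 := h z (Multiset.mem_cons_self z M)
    have h2 := ih fun z' hz' => h z' (Multiset.mem_cons_of_mem hz')
    rw [Multiset.map_cons, Multiset.map_cons, Multiset.sum_cons, Multiset.sum_cons,
      Multiset.card_cons]
    push_cast
    calc |u z + (M.map u).sum - (v z + (M.map v).sum)|
        = |(u z - v z) + ((M.map u).sum - (M.map v).sum)| := by ring_nf
      _ ≤ |u z - v z| + |(M.map u).sum - (M.map v).sum| := abs_add_le _ _
      _ ≤ ((M.card : ℝ) + 1) * δ := by linarith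

open Classical in
/-- near `y`, the sums over classical fibres are close to `f_* φ (y)`. -/
theorem exists_sum_fib_close (f : RatMap K) (hd : 1 ≤ f.deg) (φ : C(P1 K, ℝ)) (y : P1 K)
    {ε : ℝ} (hε : 0 < ε) : ∃ W : Set (P1 K), IsOpen W ∧ y ∈ W ∧ ∀ w : OnePoint K, emb w ∈ W →
      |((f.fib w).map (fun z => φ (emb z))).sum - pushf f φ y| ≤ ε := by
  set X := (Fib_finite f hd y).toFinset with hXdef
  have hX : ∀ x ∈ X, f.act x = y := fun x hx => by
    have : x ∈ Fib f y := by simpa [hXdef] using hx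
    exact this
  have hdpos : (0 : ℝ) < f.deg := by exact_mod_cast hd
  set δ := ε / f.deg with hδ
  have hδ0 : 0 < δ := div_pos hε hdpos
  obtain ⟨V, W, hV, hdis, hWo, hyW, hN⟩ := exists_nhds f hd y X hX
    (fun x => {z | |φ z - φ x| < δ}) (fun x _ => ⟨by
      have hc : Continuous fun z => |φ z - φ x| := (φ.continuous.sub continuous_const).abs
      exact isOpen_lt hc continuous_const, by simpa using hδ0⟩)
  obtain ⟨W', hW'o, hyW', hN'⟩ := exists_near_fib f hd y (⋃ x ∈ X, V x)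
    (isOpen_biUnion fun x hx => (hV x hx).1) (fun x hx => by
      have hx' : x ∈ X := by simpa [hXdef] using hx
      exact Set.mem_biUnion hx' (hV x hx').2.1)
  refine ⟨W ∩ W', hWo.inter hW'o, ⟨hyW, hyW'⟩, fun w hw => ?_⟩
  -- every preimage is in one of the `V x`
  have hcard := hN' w hw.2
  have hall : ∀ z ∈ f.fib w, ∃ x ∈ X, emb z ∈ V x := by
    have h1 : ((f.fib w).filter (fun z => emb z ∈ ⋃ x ∈ X, V x)).card = (f.fib w).card := by
      rw [f.card_fib w]; exact hcard
    have h2 : (f.fib w).filter (fun z => emb z ∈ ⋃ x ∈ X, V x) = f.fib w :=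
      Multiset.eq_of_le_of_card_le (Multiset.filter_le _ _) h1.ge
    intro z hz
    rw [← h2, Multiset.mem_filter] at hz
    simpa using hz.2
  set ψ : OnePoint K → ℝ := fun z => ∑ x ∈ X, if emb z ∈ V x then φ x else 0 with hψ
  have hψV : ∀ z x, x ∈ X → emb z ∈ V x → ψ z = φ x := by
    intro z x hx hz
    rw [hψ]
    simp only
    rw [Finset.sum_eq_single x]
    · rw [if_pos hz]
    · intro x' hx' hne
      rw [if_neg]
      intro hz'
      exact Set.disjoint_left.1 (hdis x' hx' x hx hne) hz' hz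
    · exact fun h => absurd hx h
  have hclose : ∀ z ∈ f.fib w, |φ (emb z) - ψ z| ≤ δ := by
    intro z hz
    obtain ⟨x, hx, hzx⟩ := hall z hz
    rw [hψV z x hx hzx]
    exact le_of_lt ((hV x hx).2.2 hzx)
  have hsum : ((f.fib w).map ψ).sum = pushf f φ y := by
    rw [pushf_eq f hd, hψ, msum_finset]
    refine Finset.sum_congr rfl fun x hx => ?_
    rw [msum_ite]
    have := hN w hw.1 x hx
    rw [RatMap.N] at this
    rw [← this]
  rw [← hsum]
  refine (msum_close (f.fib w) (fun z => φ (emb z)) ψ δ hclose).trans (le_of_eq ?_)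
  rw [f.card_fib w, hδ]
  field_simp

/-- **`f_* φ` is continuous.** -/
theorem continuous_pushf (f : RatMap K) (hd : 1 ≤ f.deg) (φ : C(P1 K, ℝ)) :
    Continuous (pushf f φ) := by
  rw [continuous_iff_continuousAt]
  intro y
  rw [Metric.continuousAt_iff']
  intro ε hε
  obtain ⟨W, hWo, hyW, hW⟩ := exists_sum_fib_close f hd φ y (ε := ε / 3) (by positivity)
  filter_upwards [hWo.mem_nhds hyW] with y' hy'
  obtain ⟨W', hWo', hyW', hW'⟩ := exists_sum_fib_close f hd φ y' (ε := ε / 3) (by positivity)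
  obtain ⟨w, hw, hw'⟩ := exists_emb_mem_ld (hWo.inter hWo') ⟨hy', hyW'⟩
  have h1 := hW w hw
  have h2 := hW' w hw'
  rw [Real.dist_eq]
  rw [abs_le] at h1 h2
  rw [abs_lt]
  constructor <;> linarith [h1.1, h1.2, h2.1, h2.2]

/-- over a classical point `f_* φ` is the sum over the fibre with multiplicities. -/
theorem pushf_emb (f : RatMap K) (hd : 1 ≤ f.deg) (φ : C(P1 K, ℝ)) (w : OnePoint K) :
    pushf f φ (emb w) = ((f.fib w).map (fun z => φ (emb z))).sum := by
  have key : ∀ ε : ℝ, 0 < ε →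
      |((f.fib w).map (fun z => φ (emb z))).sum - pushf f φ (emb w)| ≤ ε := by
    intro ε hε
    obtain ⟨W, hWo, hyW, hW⟩ := exists_sum_fib_close f hd φ (emb w) hε
    exact hW w hyW
  have h0 : |((f.fib w).map (fun z => φ (emb z))).sum - pushf f φ (emb w)| ≤ 0 :=
    le_of_forall_pos_le_add fun ε hε => by simpa using key ε hε
  have := abs_nonpos_iff.1 h0
  linarith

theorem IsEquilibriumLit.isEquilibrium {f : RatMap K} (hd : 1 ≤ f.deg) {ρ : Measure (P1 K)}
    (h : IsEquilibriumLit f ρ) : f.IsEquilibrium ρ := by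
  refine ⟨h.supp, fun φ ψ hψ => ?_⟩
  rw [← h.pull φ]
  have e : (ψ : P1 K → ℝ) = pushf f φ := by
    refine Continuous.ext_on dense_range_emb ψ.continuous (continuous_pushf f hd φ) ?_
    rintro _ ⟨w, rfl⟩
    rw [pushf_emb f hd φ w, hψ w]
  rw [e]

theorem isEquilibrium_iff {f : RatMap K} (hd : 1 ≤ f.deg) {ρ : Measure (P1 K)} :
    IsEquilibriumLit f ρ ↔ f.IsEquilibrium ρ := by
  refine ⟨fun h => h.isEquilibrium hd, fun h => ⟨h.supp, fun φ => ?_⟩⟩
  have h1 := h.pull φ ⟨pushf f φ, continuous_pushf f hd φ⟩ (fun w => pushf_emb f hd φ w)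
  exact h1

end Pool.Agent.Helper34.Berk
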